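import Pool.Agent.N728.QG.Def

set_option autoImplicit false

/-! QG/RNG: the ranges and the pointwise bound (helper755). -/

namespace Pool.Agent.N755.QG

open Finset Pool.Agent.N728.QL

noncomputable section

/-- the windows -/
lemma window {M j : ℕ} {ρ : ℝ} (hM : 1 ≤ M) (hρ1 : 1 < ρ) :
    ∀ m : ℕ, m ∣ M → jw ρ m = j → ρ ^ j ≤ m ∧ (m : ℝ) < ρ ^ (j + 1) := by
  have hρ0 : 0 < ρ := by linarith
  have hlogρ : 0 < Real.log ρ := Real.log_pos hρ1
  intro m hm hjw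
  have hm1 : 1 ≤ m := Nat.pos_of_dvd_of_pos hm (by omega)
  have hmr : (1 : ℝ) ≤ m := by exact_mod_cast hm1
  unfold jw at hjw
  have h0 : 0 ≤ Real.log m / Real.log ρ := div_nonneg (Real.log_nonneg hmr) hlogρ.le
  have h1 := Nat.floor_le h0
  have h2 := Nat.lt_floor_add_one (Real.log m / Real.log ρ)
  rw [hjw] at h1 h2
  rw [le_div_iff₀ hlogρ] at h1
  rw [div_lt_iff₀ hlogρ] at h2
  constructor
  · have h3 : Real.log (ρ ^ j) ≤ Real.log m := by rw [Real.log_pow]; exact h1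
    exact (Real.log_le_log_iff (by positivity) (by linarith)).1 h3
  · have h3 : Real.log m < Real.log (ρ ^ (j + 1)) := by rw [Real.log_pow]; push_cast; exact h2
    exact (Real.log_lt_log_iff (by linarith) (by positivity)).1 h3

lemma small {M0 T : ℝ} (h0 : 1 ≤ M0) (hT : (2 : ℝ) ^ 30 ≤ T) (h8 : M0 ^ 8 ≤ T) :
    16 * M0 ^ 2 ≤ T := by
  rcases le_or_gt M0 (2 ^ 10) with h | h
  · calc 16 * M0 ^ 2 ≤ 16 * (2 ^ 10) ^ 2 := by
          have := pow_le_pow_left₀ (by linarith : (0 : ℝ) ≤ M0) h 2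
          linarith
      _ ≤ 2 ^ 30 := by norm_num
      _ ≤ T := hT
  · calc 16 * M0 ^ 2 ≤ M0 ^ 6 * M0 ^ 2 := by
          apply mul_le_mul_of_nonneg_right _ (by positivity)
          calc (16 : ℝ) ≤ (2 ^ 10) ^ 6 := by norm_num
            _ ≤ M0 ^ 6 := pow_le_pow_left₀ (by norm_num) h.le 6
      _ = M0 ^ 8 := by ring
      _ ≤ T := h8

theorem t_RNG : Pool.Agent.N728.QG.S_RNG := by
  intro D K hD hK
  refine ⟨8 * D, max ((2 ^ 30) ^ D) (2 * K), ?_⟩
  intro B hB T M0 M j ρ hT hT2 hM0 hM hMM hρ1 hρ2 hj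
  have hBD : (2 ^ 30) ^ D ≤ B := (le_max_left _ _).trans hB
  have hBK : 2 * K ≤ B := (le_max_right _ _).trans hB
  have hD0 : D ≠ 0 := by omega
  have hB30 : 2 ^ 30 ≤ B := le_trans (Nat.le_self_pow hD0 _) hBD
  have hT30' : 2 ^ 30 ≤ T := (Nat.pow_le_pow_iff_left hD0).1 (hBD.trans hT)
  have hM8' : M0 ^ 8 ≤ T := by
    apply (Nat.pow_le_pow_iff_left hD0).1
    rw [← pow_mul]
    exact hM0.trans hT
  have hM01' : 1 ≤ M0 := hM.trans hMM
  have hM8B' : M0 ^ 8 ≤ B := by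
    refine le_trans ?_ hM0
    rw [pow_mul]
    exact Nat.le_self_pow hD0 _
  unfold Wn at hj
  rw [mem_image] at hj
  obtain ⟨m0, hm0, hjm⟩ := hj
  have hm0M : m0 ∣ M := (Nat.mem_divisors.1 hm0).1
  have hρ0 : 0 < ρ := by linarith
  have key := window (j := j) hM hρ1
  obtain ⟨hk1, hk2⟩ := key m0 hm0M hjm
  have hm0le : (m0 : ℝ) ≤ M := by exact_mod_cast Nat.le_of_dvd (by omega) hm0M
  have hMr : (1 : ℝ) ≤ M := by exact_mod_cast hM
  have hMM0 : (M : ℝ) ≤ M0 := by exact_mod_cast hMM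
  have hM0r : (1 : ℝ) ≤ M0 := hMr.trans hMM0
  have hρj1 : 1 ≤ ρ ^ (j + 1) := one_le_pow₀ hρ1.le
  have hρjpos : 0 < ρ ^ (j + 1) := by positivity
  have hρj : ρ ^ (j + 1) ≤ 2 * M := by
    rw [pow_succ]
    have : 0 < ρ ^ j := by positivity
    nlinarith
  have hBr : (2 : ℝ) ^ 30 ≤ B := by exact_mod_cast hB30
  have hB0 : (0 : ℝ) < B := lt_of_lt_of_le (by norm_num) hBr
  have hT30 : (2 : ℝ) ^ 30 ≤ T := by exact_mod_cast hT30'
  have hT0 : (0 : ℝ) < T := lt_of_lt_of_le (by norm_num) hT30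
  have hM8 : (M0 : ℝ) ^ 8 ≤ T := by exact_mod_cast hM8'
  have hM8B : (M0 : ℝ) ^ 8 ≤ B := by exact_mod_cast hM8B'
  have h16T := small hM0r hT30 hM8
  have h16B := small hM0r hBr hM8B
  have hM0sq : (M0 : ℝ) ≤ M0 ^ 2 := le_self_pow₀ hM0r (by norm_num)
  have hKr : (1 : ℝ) ≤ K := by exact_mod_cast hK
  have hKB : 2 * (K : ℝ) ≤ B := by exact_mod_cast hBK
  set X := ⌊(T : ℝ) / ρ ^ (j + 1)⌋₊ with hX
  set Y := ⌊((K * B : ℕ) : ℝ) * ρ ^ (j + 1) / M⌋₊ with hY
  have hX1 : (X : ℝ) ≤ (T : ℝ) / ρ ^ (j + 1) := Nat.floor_le (by positivity)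
  have hX2 : (T : ℝ) / ρ ^ (j + 1) < X + 1 := Nat.lt_floor_add_one _
  have hY1 : (Y : ℝ) ≤ ((K * B : ℕ) : ℝ) * ρ ^ (j + 1) / M := Nat.floor_le (by positivity)
  have hY2 : ((K * B : ℕ) : ℝ) * ρ ^ (j + 1) / M < Y + 1 := Nat.lt_floor_add_one _
  push_cast at hY1 hY2
  have hT4 : (T : ℝ) / (2 * M0) ≤ (T : ℝ) / ρ ^ (j + 1) := by
    apply div_le_div_of_nonneg_left hT0.le (by positivity)
    linarith
  have hXlow : (T : ℝ) / (4 * M0) ≤ X := by
    have h1 : (T : ℝ) / (2 * M0) = T / (4 * M0) + T / (4 * M0) := by field_simp; ring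
    have h2 : 1 ≤ (T : ℝ) / (4 * M0) := by
      rw [le_div_iff₀ (by positivity)]; linarith
    linarith
  have hXT : (T : ℝ) ≤ (X : ℝ) ^ 2 := by
    have h1 : ((T : ℝ) / (4 * M0)) ^ 2 ≤ (X : ℝ) ^ 2 := pow_le_pow_left₀ (by positivity) hXlow 2
    refine le_trans ?_ h1
    rw [div_pow, le_div_iff₀ (by positivity)]
    calc (T : ℝ) * (4 * (M0 : ℝ)) ^ 2 = (T : ℝ) * (16 * (M0 : ℝ) ^ 2) := by ring
      _ ≤ (T : ℝ) * (T : ℝ) := mul_le_mul_of_nonneg_left h16T hT0.le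
      _ = (T : ℝ) ^ 2 := by ring
  have hXT' : T ≤ X ^ 2 := by exact_mod_cast hXT
  have hYlow : (B : ℝ) / (2 * M0) ≤ Y := by
    have h1 : (B : ℝ) / M0 ≤ K * B * ρ ^ (j + 1) / M := by
      rw [div_le_div_iff₀ (by positivity) (by positivity)]
      calc (B : ℝ) * M ≤ B * (ρ ^ (j + 1) * M0) := by
            apply mul_le_mul_of_nonneg_left _ (by positivity)
            nlinarith
        _ = 1 * (B * ρ ^ (j + 1) * M0) := by ring
        _ ≤ K * (B * ρ ^ (j + 1) * M0) := mul_le_mul_of_nonneg_right hKr (by positivity)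
        _ = _ := by ring
    have h2 : (B : ℝ) / M0 = B / (2 * M0) + B / (2 * M0) := by field_simp; ring
    have h3 : 1 ≤ (B : ℝ) / (2 * M0) := by
      rw [le_div_iff₀ (by positivity)]; linarith
    linarith
  have hYB : (B : ℝ) ≤ (Y : ℝ) ^ 2 := by
    have h1 : ((B : ℝ) / (2 * M0)) ^ 2 ≤ (Y : ℝ) ^ 2 := pow_le_pow_left₀ (by positivity) hYlow 2
    refine le_trans ?_ h1
    rw [div_pow, le_div_iff₀ (by positivity)]
    calc (B : ℝ) * (2 * (M0 : ℝ)) ^ 2 = (B : ℝ) * (4 * (M0 : ℝ) ^ 2) := by ring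
      _ ≤ (B : ℝ) * (B : ℝ) := by
          apply mul_le_mul_of_nonneg_left _ hB0.le
          linarith [sq_nonneg (M0 : ℝ)]
      _ = (B : ℝ) ^ 2 := by ring
  refine ⟨?_, ?_, ?_, by exact_mod_cast hYB, ?_, ?_, ?_⟩
  · calc B ≤ T ^ D := hT
      _ ≤ (X ^ 2) ^ D := Nat.pow_le_pow_left hXT' D
      _ = X ^ (2 * D) := by rw [pow_mul]
  · have h1 : (X : ℝ) ≤ T := hX1.trans (div_le_self hT0.le hρj1)
    exact_mod_cast h1
  · rw [div_le_iff₀ (by positivity)] at hXlow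
    have h1 : (T : ℝ) ≤ 4 * M0 * X := by linarith
    exact_mod_cast h1
  · have h1 : (Y : ℝ) ≤ (B : ℝ) ^ 2 := by
      calc (Y : ℝ) ≤ K * B * ρ ^ (j + 1) / M := hY1
        _ ≤ K * B * (2 * M) / M := by gcongr
        _ = (2 * K) * B := by field_simp
        _ ≤ (B : ℝ) * B := mul_le_mul_of_nonneg_right hKB hB0.le
        _ = (B : ℝ) ^ 2 := by ring
    exact_mod_cast h1
  · calc (X : ℝ) * Y ≤ ((T : ℝ) / ρ ^ (j + 1)) * (K * B * ρ ^ (j + 1) / M) := by gcongr
      _ = T * (K * B) / M := by field_simp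
  · intro m hm
    unfold Dv at hm
    rw [mem_filter, Nat.mem_divisors] at hm
    obtain ⟨hk3, hk4⟩ := key m hm.1.1 hm.2
    refine ⟨?_, hk4⟩
    have hmM : m ∣ M := hm.1.1
    have hm1 : 1 ≤ m := Nat.pos_of_dvd_of_pos hmM (by omega)
    have hmr : (1 : ℝ) ≤ m := by exact_mod_cast hm1
    have hdiv : ((M / m : ℕ) : ℝ) = (M : ℝ) / m := Nat.cast_div hmM (by positivity)
    have h1 : (K : ℝ) * B ≤ ((M / m : ℕ) : ℝ) * Y + M0 := by
      have h2 : ((M : ℝ) / m) * (K * B * ρ ^ (j + 1) / M - 1) ≤ ((M : ℝ) / m) * Y := by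
        apply mul_le_mul_of_nonneg_left _ (by positivity)
        linarith
      have h3 : ((M : ℝ) / m) * (K * B * ρ ^ (j + 1) / M - 1) =
          K * B * (ρ ^ (j + 1) / m) - M / m := by
        field_simp
      have h4 : 1 ≤ ρ ^ (j + 1) / m := by rw [le_div_iff₀ (by positivity)]; linarith
      have h5 : (M : ℝ) / m ≤ M0 := (div_le_self (by positivity) hmr).trans hMM0
      have h6 : (K : ℝ) * B * 1 ≤ K * B * (ρ ^ (j + 1) / m) :=
        mul_le_mul_of_nonneg_left h4 (by positivity)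
      rw [hdiv]
      linarith
    exact_mod_cast h1

theorem t_EEB (hMER : S_MER) : Pool.Agent.N728.QG.S_EEB := by
  obtain ⟨C, hC1, -, hC⟩ := hMER
  refine ⟨8 * C, by linarith, ?_⟩
  intro c k z hk
  refine ⟨max (3 ^ k) (max (16 + 4 * (c.natAbs + 1) ^ 2) 0), ?_⟩
  intro B hB z1 hz1 hz1'
  have hB3 : 3 ^ k ≤ B := (le_max_left _ _).trans hB
  have hBc : 16 + 4 * (c.natAbs + 1) ^ 2 ≤ B :=
    ((le_max_left _ _).trans (le_max_right _ _)).trans hB
  have hz13 : 3 ≤ z1 := by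
    by_contra hcon
    have : (z1 + 1) ^ k ≤ 3 ^ k := Nat.pow_le_pow_left (by omega) k
    omega
  refine ⟨by omega, ?_⟩
  intro n
  have hz1r : (3 : ℝ) ≤ z1 := by exact_mod_cast hz13
  have hB1 : (1 : ℝ) < B := by exact_mod_cast (by omega : 1 < B)
  have hlogB : 0 < Real.log B := Real.log_pos hB1
  have hkr : (2 : ℝ) ≤ k := by exact_mod_cast hk
  have hN0 := NN_nonneg c z z1 n
  have hC0 : 0 < C := by linarith
  unfold Pool.Agent.N728.QG.EP
  split_ifs with hn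
  swap
  · rw [abs_zero]
    positivity
  obtain ⟨hn1, hn2⟩ := hn
  have hlogz : Real.log B ≤ 2 * k * Real.log z1 := by
    have h1 : (B : ℝ) ≤ ((z1 : ℝ) ^ 2) ^ k := by
      have h2 : B ≤ (z1 ^ 2) ^ k := by
        refine hz1'.le.trans (Nat.pow_le_pow_left ?_ k)
        nlinarith
      exact_mod_cast h2
    have h3 := Real.log_le_log (by linarith) h1
    rw [← pow_mul, Real.log_pow] at h3
    push_cast at h3
    linarith
  have hV := (hC z1 (by omega)).1
  have hlz := lz_nonneg z ((n : ℤ) + c)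
  have hlz1 := lz_nonneg z1 ((n : ℤ) + c)
  have hlp : |Pool.Agent.N728.QL.lp ((n : ℤ) + c)| ≤ 8 * C * k * lz z1 ((n : ℤ) + c) := by
    unfold Pool.Agent.N728.QL.lp
    split_ifs with hp
    · set m : ℤ := (n : ℤ) + c with hm
      have hm0 : 0 < m := by
        by_contra hcon
        have : m.toNat = 0 := by omega
        rw [this] at hp
        exact Nat.not_prime_zero hp
      have hmn : (m.toNat : ℤ) = m := by omega
      have hz1B : z1 ^ 2 ≤ B := le_trans (Nat.pow_le_pow_right (by omega) hk) hz1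
      have hcs : (c.natAbs : ℤ) = |c| := Int.natCast_natAbs c
      have hc1 : -(c.natAbs : ℤ) ≤ c ∧ c ≤ c.natAbs := by
        rw [hcs]
        exact ⟨neg_abs_le c, le_abs_self c⟩
      -- m > z1
      have hmz : (z1 : ℤ) < m := by
        have h1 : 4 * z1 ≤ z1 ^ 2 + 4 := by
          nlinarith [sq_nonneg ((z1 : ℤ) - 2), Nat.sub_add_cancel hz13]
        have h2 : 4 * (c.natAbs + 1) ≤ (c.natAbs + 1) ^ 2 + 4 := by
          have := sq_nonneg ((c.natAbs : ℤ) - 1)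
          zify
          nlinarith
        have h3 : 2 * n ≥ B := hn1
        have h4 : 4 * (z1 + c.natAbs) < 4 * n := by
          have h5 : 4 * z1 + 4 * (c.natAbs + 1) ≤ z1 ^ 2 + 4 + ((c.natAbs + 1) ^ 2 + 4) := by omega
          have h6 : (c.natAbs + 1) ^ 2 * 4 + 16 ≤ B := by omega
          omega
        omega
      have hrg : Rg 0 z1 m := by
        intro p hp1 _ hpz hdvd
        have h1 : p ∣ m.toNat := by
          rw [← hmn] at hdvd
          exact_mod_cast hdvd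
        have h2 := (Nat.prime_dvd_prime_iff_eq hp1 hp).1 h1
        omega
      have hlz1e : lz z1 m = (VW 0 z1)⁻¹ := by
        unfold lz
        rw [if_pos hrg]
      rw [hlz1e]
      have hmle : (m : ℝ) ≤ (B : ℝ) ^ 4 := by
        have h1 : m ≤ (B : ℤ) ^ 3 + c.natAbs := by
          have : (n : ℤ) ≤ (B : ℤ) ^ 3 := by exact_mod_cast hn2
          omega
        have h2 : (B : ℤ) ^ 3 + c.natAbs ≤ (B : ℤ) ^ 4 := by
          have h3 : (c.natAbs : ℤ) ≤ B := by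
            have : (c.natAbs + 1) ≤ (c.natAbs + 1) ^ 2 := Nat.le_self_pow (by norm_num) _
            omega
          have h4 : (16 : ℤ) ≤ B := by omega
          have h5 : (B : ℤ) ≤ (B : ℤ) ^ 3 := le_self_pow₀ (by omega) (by norm_num)
          have h6 : (B : ℤ) ^ 4 = (B : ℤ) ^ 3 * B := by ring
          rw [h6]
          nlinarith
        exact_mod_cast h1.trans h2
      have hm1 : (1 : ℝ) ≤ m := by exact_mod_cast (by omega : (1 : ℤ) ≤ m)
      rw [abs_of_nonneg (Real.log_nonneg hm1)]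
      have h1 : Real.log m ≤ 4 * Real.log B := by
        have := Real.log_le_log (by linarith) hmle
        rw [Real.log_pow] at this
        exact_mod_cast this
      calc Real.log m ≤ 4 * Real.log B := h1
        _ ≤ 4 * (2 * k * Real.log z1) := by linarith
        _ ≤ 4 * (2 * k * (C * (VW 0 z1)⁻¹)) := by
            have : (0 : ℝ) ≤ 4 * (2 * k) := by positivity
            nlinarith
        _ = 8 * C * k * (VW 0 z1)⁻¹ := by ring
    · rw [abs_zero]
      positivity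
  have h1 : (1 : ℝ) ≤ 8 * C * k := by nlinarith
  unfold EE
  calc |Pool.Agent.N728.QL.lp ((n : ℤ) + c) - lz z ((n : ℤ) + c)| ≤
        |Pool.Agent.N728.QL.lp ((n : ℤ) + c)| + |lz z ((n : ℤ) + c)| :=
        abs_sub _ _
    _ ≤ 8 * C * k * lz z1 ((n : ℤ) + c) + 8 * C * k * lz z ((n : ℤ) + c) := by
        apply add_le_add hlp
        rw [abs_of_nonneg hlz]
        nlinarith
    _ = 8 * C * k * NN c z z1 n := by unfold NN; ring

end

end Pool.Agent.N755.QG
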